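import Mathlib
import Pool.Agent.W307.RT.Stm
import Pool.Agent.W262.RK.F4a

/-!
# Project RS: definitions and statements of the parts

Ranks in short intervals and squares. Two aims:

(1) the average of `2 ^ rank` over the curves with `Z/2 x Z/4` (`Z/2 x Z/6`), ordered by the
minimal discriminant, is bounded (problem MP_6073f3_nt);

(2) all the moments of `2 ^ rank` of the twists `E^D(t)`, `D(t)` a product of linear polynomials,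
are bounded in short intervals (problem MP_f57f06_nt).
-/

namespace Pool.Agent.W307.RS

open Finset Pool.Agent.W262.RK Pool.Agent.W307.RT

/-- RSA: the weighted sum with Rankin's trick, for a general growth constant `A`. -/
def RSA : Prop := ∀ (J : Type) [Fintype J] [DecidableEq J] (z : ℕ) (G : (J → ℕ) → ℝ)
  (A C' lam : ℝ), 2 * Fintype.card J + 2 ≤ z → 1 ≤ A → 0 ≤ lam → (∀ s, 0 ≤ G s) →
  (∀ y, z < y → ∀ s e : J → ℕ, (fun j => s j * e j) ∈ Tup J z y →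
    G (fun j => s j * e j) ≤ A ^ (∑ j, (e j).primeFactors.card) * G s) →
  (∀ y, z < y → ∑ s ∈ Tup J z y, G s * ∏ j, gw 1 (Fintype.card J) (s j) ≤
    C' * (Real.log y) ^ (Fintype.card J)) →
  ∃ C : ℝ, ∀ y, z < y →
    ∑ s ∈ Tup J z y, G s * (∏ j, gw 1 (Fintype.card J) (s j)) *
      (∏ j, (s j : ℝ)) ^ (lam / Real.log y) ≤ C * (Real.log y) ^ (Fintype.card J)

/-- RVA: the sum over the squares, for a general growth constant `A`. -/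
def RVA : Prop := ∀ (J : Type) [Fintype J] [DecidableEq J] (z : ℕ) (A lam : ℝ),
  2 * Fintype.card J + 2 ≤ z → 1 ≤ A → 0 ≤ lam → ∃ C : ℝ, ∀ y, z < y →
    ∑ v ∈ Tup J z y, (∏ j, A ^ (v j).primeFactors.card * (gw 1 (Fintype.card J) (v j) / v j)) *
      (∏ j, (v j : ℝ)) ^ (lam / Real.log y) ≤ C

/-- ANTU: summation of a function with a local majorant (Nair, Tenenbaum), uniform in a
parameter `θ`, with the scale `L θ` and the size `S θ`, and a general growth constant `A`. -/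
def ANTU : Prop := ∀ (J : Type) [Fintype J] [DecidableEq J] (Ω Θ : Type) (T : Θ → Finset Ω)
  (L : Θ → ℕ) (f : Θ → Ω → J → ℤ) (S : Θ → ℝ) (z : ℕ) (G : (J → ℕ) → ℝ) (R : Θ → Ω → ℝ)
  (A C C' D : ℝ) (K y0 : ℕ),
  2 * Fintype.card J + 2 ≤ z → (∀ θ, 1 ≤ L θ) → (∀ θ, 0 ≤ S θ) →
  (∀ X0 : ℕ, ∃ B : ℝ, ∀ θ, L θ ≤ X0 → ∑ ω ∈ T θ, R θ ω ≤ B * S θ) →
  (∀ θ, ∀ ω ∈ T θ, Gd z (f θ ω)) → (∀ s, 0 ≤ G s) → (∀ θ ω, 0 ≤ R θ ω) → 1 ≤ A → 0 ≤ C →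
  1 ≤ D → 1 ≤ K →
  (∀ y, z < y → ∀ s e : J → ℕ, (fun j => s j * e j) ∈ Tup J z y →
    G (fun j => s j * e j) ≤ A ^ (∑ j, (e j).primeFactors.card) * G s) →
  (∀ y, z < y → ∑ s ∈ Tup J z y, G s * ∏ j, gw 1 (Fintype.card J) (s j) ≤
    C' * (Real.log y) ^ (Fintype.card J)) →
  (∀ (θ : Θ) (y Y k : ℕ), y0 ≤ y → z < y → y ^ K ≤ L θ → L θ < (y + 1) ^ k →
    ∀ s ∈ Tup J z y, ∀ v ∈ Tup J z y, ∀ u ∈ Tup J y Y, (∏ j, s j * v j * u j) ^ 8 ≤ L θ →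
    ∀ T' : Finset Ω, T' ⊆ T θ → (∀ ω ∈ T', S1 z y (f θ ω) = s ∧ S2 z y (f θ ω) = v ∧
      ∀ j, (u j : ℤ) ∣ f θ ω j) →
    ∑ ω ∈ T', R θ ω ≤
      C * D ^ k * S θ * (G s * ∏ j, gw 1 (Fintype.card J) (s j)) *
        (∏ j, A ^ (v j).primeFactors.card * (gw 1 (Fintype.card J) (v j) / v j)) *
        (∏ j, 1 / (u j : ℝ)) / (Real.log y) ^ (Fintype.card J)) →
  ∃ C2 : ℝ, ∀ θ, ∑ ω ∈ T θ, R θ ω ≤ C2 * S θ

/-! ### Short squares -/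

/-- AVHS: the average of a multiplicative function close to one over a short interval. -/
def AVHS : Prop := ∀ c z B : ℕ, 2 * c + 2 ≤ z → ∃ C : ℝ, 0 ≤ C ∧ ∀ (N : ℤ) (X : ℕ), 1 ≤ X →
  N.natAbs ≤ X ^ B →
  ∑ v ∈ Icc 1 X, ∏ p ∈ (N + (v : ℤ)).natAbs.primeFactors.filter (fun p => z < p),
    (p : ℝ) / ((p : ℝ) - c) ≤ C * X

/-- CNT2S: the number of coprime pairs in a short square with given small prime factors of the
values of the forms. -/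
def CNT2S : Prop := ∀ (J : Type) [Fintype J] [DecidableEq J] (α β : J → ℤ) (z B : ℕ), Bg α β z →
  ∃ (C : ℝ) (K y0 : ℕ), 0 ≤ C ∧ 1 ≤ K ∧ ∀ (N1 N2 : ℤ) (X y Y : ℕ), N1.natAbs ≤ X ^ B →
  N2.natAbs ≤ X ^ B → y0 ≤ y → z < y → y ^ K ≤ X →
  ∀ s ∈ Tup J z y, ∀ v ∈ Tup J z y, ∀ u ∈ Tup J y Y, (∏ j, s j * v j * u j) ^ 8 ≤ X →
    (((Icc 1 X ×ˢ Icc 1 X).filter (fun t : ℕ × ℕ =>
      IsCoprime (N1 + (t.1 : ℤ)) (N2 + (t.2 : ℤ)) ∧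
      S1 z y (fv α β (N1 + (t.1 : ℤ)) (N2 + (t.2 : ℤ))) = s ∧
      S2 z y (fv α β (N1 + (t.1 : ℤ)) (N2 + (t.2 : ℤ))) = v ∧
      ∀ j, (u j : ℤ) ∣ fv α β (N1 + (t.1 : ℤ)) (N2 + (t.2 : ℤ)) j)).card : ℝ) ≤
      C * X ^ 2 * (∏ j, gw 1 (Fintype.card J) (s j)) *
        (∏ j, gw 1 (Fintype.card J) (v j) / v j) * (∏ j, 1 / (u j : ℝ)) /
        (Real.log y) ^ (Fintype.card J)

/-- RANK2B: as `RANK2`, for values of size `X ^ B`. -/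
def RANK2B : Prop := ∀ (J : Type) [Fintype J] [DecidableEq J] (cls : J → Fin 4) (a : Fin 3 → ℤ)
  (μ : J → ℕ) (α β : J → ℤ) (z B : ℕ), (∀ j, cls j ≠ 3) → (∀ k, a k ≠ 0) → (∀ j, 1 ≤ μ j) →
  Bg α β z → (∀ p : ℕ, p.Prime → z < p → ∀ k, ¬ (p : ℤ) ∣ a k) →
  (∀ k, Even (∑ l ∈ fc cls k, μ l)) → (∀ j, kapM cls a μ α β j ≠ 0) →
  (∀ j, (kapM cls a μ α β j).natAbs ≤ z) →
  (∀ j, Odd (μ j) ∨ IsSquare (kapM cls a μ α β j)) →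
  (∀ u v : ℤ, FM cls a μ (fv α β u v) 0 - FM cls a μ (fv α β u v) 1 =
    FM cls a μ (fv α β u v) 2) →
  ∀ (X y k : ℕ) (u v : ℤ), IsCoprime u v → (∀ j, fv α β u v j ≠ 0) →
  (∀ j, (fv α β u v j).natAbs ≤ X ^ B) → 1 ≤ X → 1 ≤ y → X < (y + 1) ^ k →
    2 ^ Module.finrank ℤ
      (EAB (FM cls a μ (fv α β u v) 0) (FM cls a μ (fv α β u v) 1)).toAffine.Point ≤
      4 ^ (z + 2) * ((4 ^ B) ^ Fintype.card J) ^ k *
        4 ^ (∑ j, (S2 z y (fv α β u v) j).primeFactors.card) *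
        NL (∏ j, S1 z y (fv α β u v) j)
          (LLs cls (fun j _ => kapM cls a μ α β j) (S1 z y (fv α β u v)) ∅)

/-- AVG2S: the average over the coprime pairs of a short square. -/
def AVG2S : Prop := ∀ (J : Type) [Fintype J] [DecidableEq J] (cls : J → Fin 4) (a : Fin 3 → ℤ)
  (μ : J → ℕ) (α β : J → ℤ), (∀ j, cls j ≠ 3) → (∀ k, a k ≠ 0) → (∀ j, 1 ≤ μ j) →
  (∀ j, α j ≠ 0) → (∀ j l, j ≠ l → Res α β j l ≠ 0) →
  (∀ k, Even (∑ l ∈ fc cls k, μ l)) → (∀ j, Odd (μ j) ∨ IsSquare (kapM cls a μ α β j)) →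
  (∀ u v : ℤ, FM cls a μ (fv α β u v) 0 - FM cls a μ (fv α β u v) 1 =
    FM cls a μ (fv α β u v) 2) →
  (∃ z0 : ℕ, ∀ z, z0 ≤ z → ∃ C' : ℝ, ∀ y, z < y →
    ∑ s ∈ Tup J z y, NB cls (fun j _ => kapM cls a μ α β j) s *
      ∏ j, gw 1 (Fintype.card J) (s j) ≤ C' * (Real.log y) ^ (Fintype.card J)) →
  ∀ B : ℕ, ∃ C : ℝ, ∀ (N1 N2 : ℤ) (X : ℕ), 1 ≤ X → N1.natAbs ≤ X ^ B → N2.natAbs ≤ X ^ B →
    ∑ t ∈ (Icc 1 X ×ˢ Icc 1 X).filter (fun t : ℕ × ℕ =>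
      IsCoprime (N1 + (t.1 : ℤ)) (N2 + (t.2 : ℤ)) ∧
      ∀ j, fv α β (N1 + (t.1 : ℤ)) (N2 + (t.2 : ℤ)) j ≠ 0),
    (2 : ℝ) ^ Module.finrank ℤ
      (EAB (FM cls a μ (fv α β (N1 + (t.1 : ℤ)) (N2 + (t.2 : ℤ))) 0)
        (FM cls a μ (fv α β (N1 + (t.1 : ℤ)) (N2 + (t.2 : ℤ))) 1)).toAffine.Point ≤ C * X ^ 2

open Classical in
/-- the summand -/
noncomputable def GG (M N : ℤ → ℤ → ℤ) (t : ℤ × ℤ) : ℝ :=
  if IsCoprime t.1 t.2 ∧ M t.1 t.2 ≠ 0 ∧ N t.1 t.2 ≠ 0 ∧ M t.1 t.2 ≠ N t.1 t.2 then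
    (2 : ℝ) ^ Module.finrank ℤ (EAB (-(M t.1 t.2)) (-(N t.1 t.2))).toAffine.Point else 0

/-- FAMS: the average over a short square for a family given by binary forms, after the change of
variables `(u, v) ↦ (u, v + q u)`. -/
def FAMS : Prop := ∀ (J : Type) [Fintype J] [DecidableEq J] (cls : J → Fin 4) (a : Fin 3 → ℤ)
  (μ : J → ℕ) (α β : J → ℤ), (∀ j, cls j ≠ 3) → (∀ k, a k ≠ 0) → (∀ j, 1 ≤ μ j) →
  (∀ j, α j ≠ 0) → (∀ j l, j ≠ l → Res α β j l ≠ 0) →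
  (∀ k, Even (∑ l ∈ fc cls k, μ l)) → (∀ j, Odd (μ j) ∨ IsSquare (kapM cls a μ α β j)) →
  (∀ u v : ℤ, FM cls a μ (fv α β u v) 0 - FM cls a μ (fv α β u v) 1 =
    FM cls a μ (fv α β u v) 2) →
  (∃ z0 : ℕ, ∀ z, z0 ≤ z → ∃ C' : ℝ, ∀ y, z < y →
    ∑ s ∈ Tup J z y, NB cls (fun j _ => kapM cls a μ α β j) s *
      ∏ j, gw 1 (Fintype.card J) (s j) ≤ C' * (Real.log y) ^ (Fintype.card J)) →
  ∀ (q : ℕ) (M N : ℤ → ℤ → ℤ), (∀ u v, FM cls a μ (fv α β u v) 0 = -(M u (v + q * u))) →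
  (∀ u v, FM cls a μ (fv α β u v) 1 = -(N u (v + q * u))) →
  ∀ B : ℕ, ∃ C : ℝ, ∀ (N1 N2 : ℤ) (X : ℕ), 1 ≤ X → N1.natAbs ≤ X ^ B → N2.natAbs ≤ X ^ B →
    ∑ t ∈ Icc 1 X ×ˢ Icc 1 X, GG M N (N1 + (t.1 : ℤ), N2 + (t.2 : ℤ)) ≤ C * X ^ 2

/-- LC: the number of the integer points with `∏ |l_j (u, v)| ^ m_j ≤ V ^ d`. -/
def LC : Prop := ∀ (J : Type) [Fintype J] [DecidableEq J] (α β : J → ℤ) (m : J → ℕ),
  (∀ j l, j ≠ l → Res α β j l ≠ 0) → (∀ j, 1 ≤ m j) → (∀ j, 2 * m j < ∑ i, m i) →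
  ∃ C : ℕ, ∀ V : ℕ, 1 ≤ V → ∀ S : Finset (ℤ × ℤ),
    (∀ t ∈ S, (∀ j, fv α β t.1 t.2 j ≠ 0) ∧
      ∏ j, (fv α β t.1 t.2 j).natAbs ^ m j ≤ V ^ (∑ i, m i)) →
    S.card ≤ C * V ^ 2

/-- COV: from the short squares to the regions `∏ |l_j (u, v)| ^ m_j ≤ W ^ d`, `d = ∑ m_j`. -/
def COV : Prop := ∀ (J : Type) [Fintype J] [DecidableEq J] (α β : J → ℤ) (m : J → ℕ)
  (g : ℤ × ℤ → ℝ), (∀ j l, j ≠ l → Res α β j l ≠ 0) → (∀ j, 1 ≤ m j) →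
  (∀ j, 2 * m j < ∑ i, m i) → (∀ t, 0 ≤ g t) →
  (∀ B : ℕ, ∃ C : ℝ, ∀ (N1 N2 : ℤ) (X : ℕ), 1 ≤ X → N1.natAbs ≤ X ^ B → N2.natAbs ≤ X ^ B →
    ∑ t ∈ Icc 1 X ×ˢ Icc 1 X, g (N1 + (t.1 : ℤ), N2 + (t.2 : ℤ)) ≤ C * X ^ 2) →
  ∃ C : ℝ, 0 ≤ C ∧ ∀ W : ℕ, 1 ≤ W → ∀ S : Finset (ℤ × ℤ),
    (∀ t ∈ S, (∀ j, fv α β t.1 t.2 j ≠ 0) ∧
      ∏ j, (fv α β t.1 t.2 j).natAbs ^ m j ≤ W ^ (∑ i, m i)) →
    ∑ t ∈ S, g t ≤ C * (W : ℝ) ^ 2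

/-! ### The minimal discriminant -/

/-- the absolute value of the minimal discriminant of an elliptic curve over the rationals: the
smallest absolute value of the discriminant of a Weierstrass equation with integer coefficients -/
noncomputable def mD (W : WeierstrassCurve ℚ) : ℕ :=
  sInf {n : ℕ | ∃ (V : WeierstrassCurve ℤ) (C : WeierstrassCurve.VariableChange ℚ),
    C • W = V.map (Int.castRingHom ℚ) ∧ n = V.Δ.natAbs}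

/-- the elliptic curves `y² = x³ + A x + B`, minimal, with a subgroup `Z/2 x Z/m` and minimal
discriminant at most `Z` -/
def DvS (m Z : ℕ) : Set (ℤ × ℤ) :=
  {c | 4 * c.1 ^ 3 + 27 * c.2 ^ 2 ≠ 0 ∧
    (∀ p : ℕ, p.Prime → ¬ ((p : ℤ) ^ 4 ∣ c.1 ∧ (p : ℤ) ^ 6 ∣ c.2)) ∧ HasT m (Sh c.1 c.2) ∧
    mD (Sh c.1 c.2) ≤ Z}

/-- MDL: the minimal discriminant and the discriminant of the short equation. -/
def MDL : Prop := ∀ A B : ℤ, 4 * A ^ 3 + 27 * B ^ 2 ≠ 0 →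
  (∀ p : ℕ, p.Prime → ¬ ((p : ℤ) ^ 4 ∣ A ∧ (p : ℤ) ^ 6 ∣ B)) →
  (16 * (4 * A ^ 3 + 27 * B ^ 2)).natAbs ≤ 6 ^ 12 * mD (Sh A B) ∧
    mD (Sh A B) ≤ (16 * (4 * A ^ 3 + 27 * B ^ 2)).natAbs

/-- PARD: parametrisation of the curves ordered by the minimal discriminant. -/
def PARD (m : ℕ) (M N : ℤ → ℤ → ℤ) : Prop :=
  ∃ (C : ℕ) (F : ℤ × ℤ → ℤ × ℤ), ∀ Z : ℕ, Set.InjOn F (DvS m Z) ∧
    ∀ c ∈ DvS m Z, IsCoprime (F c).1 (F c).2 ∧ M (F c).1 (F c).2 ≠ 0 ∧ N (F c).1 (F c).2 ≠ 0 ∧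
      M (F c).1 (F c).2 ≠ N (F c).1 (F c).2 ∧
      (M (F c).1 (F c).2 * N (F c).1 (F c).2 *
        (M (F c).1 (F c).2 - N (F c).1 (F c).2)).natAbs ^ 2 ≤ C * Z ∧
      Module.finrank ℤ (Sh c.1 c.2).toAffine.Point =
        Module.finrank ℤ (EAB (-(M (F c).1 (F c).2)) (-(N (F c).1 (F c).2))).toAffine.Point

/-! ### Twists: all the moments in short intervals -/

/-- CNT4U: as `CNT4`, the constants do not depend on the forms. -/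
def CNT4U : Prop := ∀ (J : Type) [Fintype J] [DecidableEq J] (cls : J → Fin 4) (z : ℕ),
  2 * Fintype.card J + 2 ≤ z → ∃ (C : ℝ) (K y0 : ℕ), 0 ≤ C ∧ 1 ≤ K ∧
  ∀ α β : J → ℤ, Bg α β z → ∀ X y Y : ℕ, y0 ≤ y → z < y →
  y ^ K ≤ X → ∀ s ∈ Tup J z y, ∀ v ∈ Tup J z y, ∀ u ∈ Tup J y Y,
  (∏ j, s j * v j * u j) ^ 8 ≤ X → ∀ E : Finset ℕ,
    (((Icc 1 X).filter (fun t : ℕ => s1 α β z y t = s ∧ s2 α β z y t = v ∧
      (∀ j, (u j : ℤ) ∣ ff α β t j) ∧ neg3 cls α β t s = E)).card : ℝ) ≤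
      C * X * (1 / 2) ^ (P3 cls s).card * (∏ j, gw 1 (Fintype.card J) (s j)) *
        (∏ j, gw 1 (Fintype.card J) (v j) / v j) * (∏ j, 1 / (u j : ℝ)) /
        (Real.log y) ^ (Fintype.card J)

/-- RANK4B: the bound of the rank by the local count, for values of size `X ^ B`. -/
def RANK4B : Prop := ∀ (J : Type) [Fintype J] [DecidableEq J] (cls : J → Fin 4) (a : Fin 3 → ℤ)
  (α β : J → ℤ) (z y X k B : ℕ), Big4 a α β z → (∀ k, a k ≠ 0) →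
  (∀ j k, kap4 cls a α β j k ≠ 0) → (∀ j k, (kap4 cls a α β j k).natAbs ≤ z) → ∀ t : ℤ,
  F4 cls a α β t 0 - F4 cls a α β t 1 = F4 cls a α β t 2 →
  (∀ j, ff α β t j ≠ 0) → (∀ j, (ff α β t j).natAbs ≤ X ^ B) → 1 ≤ X → 1 ≤ y →
  X < (y + 1) ^ k →
    2 ^ Module.finrank ℤ (EAB (F4 cls a α β t 0) (F4 cls a α β t 1)).toAffine.Point ≤
      4 ^ (z + 2) * ((4 ^ B) ^ Fintype.card J) ^ k *
        4 ^ (∑ j, (s2 α β z y t j).primeFactors.card) *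
        NL (∏ j, s1 α β z y t j) (LLs cls (kap4 cls a α β) (s1 α β z y t)
          (neg3 cls α β t (s1 α β z y t)))

/-- all the forms are twists -/
def c3 (J : Type) : J → Fin 4 := fun _ => 3

section moments

variable {J : Type} [Fintype J] [DecidableEq J]

/-- the `k`-th moment of `NL` over the signs -/
noncomputable def NBK (k : ℕ) (κ : J → Fin 3 → ℤ) (s : J → ℕ) : ℝ :=
  (1 / 2) ^ (P3 (c3 J) s).card *
    ∑ E ∈ (P3 (c3 J) s).powerset, (NL (∏ j, s j) (LLs (c3 J) κ s E) : ℝ) ^ k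

/-- the number of the `a` with `x a · v a = 1` -/
def dK (k : ℕ) (v x : Fin k → Bool × Bool) : ℕ :=
  (univ.filter (fun a => xor ((x a).1 && (v a).1) ((x a).2 && (v a).2) = true)).card

/-- the index set: `(j, v, χ)` with `∑ χ_a (v_a) = 0` -/
def IK (k : ℕ) (J : Type) : Type :=
  {i : J × (Fin k → Bool × Bool) × (Fin k → Bool × Bool) // dK k i.2.1 i.2.2 % 2 = 0}

instance (k : ℕ) : Fintype (IK k J) :=
  inferInstanceAs (Fintype {i : J × (Fin k → Bool × Bool) × (Fin k → Bool × Bool) //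
    dK k i.2.1 i.2.2 % 2 = 0})

instance (k : ℕ) : DecidableEq (IK k J) :=
  fun a b => decidable_of_iff (a.1 = b.1) Subtype.ext_iff.symm

/-- the symbol `(d i / d i')` occurs if `∑ χ_{i', a} (v_{i, a}) = 1` -/
def LK (k : ℕ) (i i' : IK k J) : Bool := decide (dK k i.1.2.1 i'.1.2.2 % 2 = 1)

/-- the constant of one component -/
def cst (κ : Fin 3 → ℤ) (v x : Bool × Bool) : ℤ :=
  if v = (true, false) then (if x.1 then κ 0 else 1) * (if x.2 then κ 0 * κ 2 else 1)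
  else if v = (false, true) then (if x.1 then κ 0 * κ 1 else 1) * (if x.2 then -κ 0 else 1)
  else if v = (true, true) then (if x.1 then κ 1 else 1) * (if x.2 then -κ 2 else 1)
  else 1

/-- the constants -/
def κK (k : ℕ) (κ : J → Fin 3 → ℤ) (i : IK k J) : ℤ :=
  ∏ a, cst (κ i.1.1) (i.1.2.1 a) (i.1.2.2 a)

end moments

/-- EXPK: expansion of the average of the `k`-th power over the signs into symbols. -/
def EXPK : Prop := ∀ (J : Type) [Fintype J] [DecidableEq J] (k : ℕ)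
  (κ : J → Fin 3 → ℤ) (c z y : ℕ), 2 ≤ z → (∀ j k, κ j k ≠ 0) → (∀ j k, (κ j k).natAbs ≤ z) →
  ∑ s ∈ Tup J z y, NBK k κ s * ∏ j, gw 1 c (s j) =
    ∑ d ∈ Tup (IK k J) z y, (∏ i, gw (1 / 4 ^ k) c (d i)) * Sym (LK k) (κK k κ) d

/-- COMBK: the largest unlinked set. -/
def COMBK : Prop := ∀ (J : Type) [Fintype J] [DecidableEq J] (k : ℕ) (U : Finset (IK k J)),
  (∀ i ∈ U, ∀ j ∈ U, LK k i j = LK k j i) → U.card ≤ 4 ^ k * Fintype.card J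

/-- SUBBK: growth of the moments. -/
def SUBBK : Prop := ∀ (J : Type) [Fintype J] [DecidableEq J] (k : ℕ)
  (κ : J → Fin 3 → ℤ) (z y : ℕ), 2 ≤ z → (∀ j k, κ j k ≠ 0) → (∀ j k, (κ j k).natAbs ≤ z) →
  ∀ s e : J → ℕ, (fun j => s j * e j) ∈ Tup J z y →
    NBK k κ (fun j => s j * e j) ≤ (4 ^ k : ℝ) ^ (∑ j, (e j).primeFactors.card) * NBK k κ s

/-- MAK: the main average. -/
def MAK : Prop := ∀ (J : Type) [Fintype J] [DecidableEq J] (k : ℕ) (κ : J → Fin 3 → ℤ),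
  1 ≤ k → (∀ j k, κ j k ≠ 0) → ∃ z0 : ℕ, ∀ z, z0 ≤ z → ∃ C : ℝ, ∀ y, z < y →
    ∑ s ∈ Tup J z y, NBK k κ s * ∏ j, gw 1 (Fintype.card J) (s j) ≤
      C * (Real.log y) ^ (Fintype.card J)

/-- AVGK: the moments of the twists in short intervals. -/
def AVGK : Prop := ∀ (J : Type) [Fintype J] [DecidableEq J] (a : Fin 3 → ℤ) (α β : J → ℤ)
  (k B : ℕ), (∀ k, a k ≠ 0) → a 0 - a 1 = a 2 → (∀ j, α j ≠ 0) →
  (∀ j l, j ≠ l → Res α β j l ≠ 0) → 1 ≤ k →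
  ∃ C : ℝ, ∀ (N : ℤ) (X : ℕ), 1 ≤ X → N.natAbs ≤ X ^ B →
    ∑ t ∈ (Icc 1 X).filter (fun t : ℕ => ∀ j, ff α β (N + (t : ℤ)) j ≠ 0),
      ((2 : ℝ) ^ Module.finrank ℤ (EAB (a 0 * ∏ j, ff α β (N + (t : ℤ)) j)
        (a 1 * ∏ j, ff α β (N + (t : ℤ)) j)).toAffine.Point) ^ k ≤ C * X

/-! ### Multiquadratic fields -/

/-- the curve `y² = x³ + A x + B` over a field -/
def ShK {F : Type} [Field F] (A B : F) : WeierstrassCurve F := ⟨0, 0, 0, A, B⟩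

open Classical in
/-- MQ1: the rank over a quadratic extension. -/
def MQ1 : Prop := ∀ (K L : Type) [Field K] [Field L] [CharZero K] [Algebra K L] (x : L) (d : K),
  x ^ 2 = algebraMap K L d → IntermediateField.adjoin K {x} = ⊤ → ∀ A B : K,
  4 * A ^ 3 + 27 * B ^ 2 ≠ 0 →
  Module.rank ℤ (ShK (algebraMap K L A) (algebraMap K L B)).toAffine.Point ≤
    Module.rank ℤ (ShK A B).toAffine.Point +
      Module.rank ℤ (ShK (d ^ 2 * A) (d ^ 3 * B)).toAffine.Point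

open Classical in
/-- MQ2: the rank over a multiquadratic field. -/
def MQ2 : Prop := ∀ (F : Type) [Field F] [CharZero F] [Algebra ℚ F] (r : ℕ) (x : Fin r → F)
  (d : Fin r → ℤ), (∀ i, x i ^ 2 = (d i : F)) → (∀ i, d i ≠ 0) →
  IntermediateField.adjoin ℚ (Set.range x) = ⊤ → ∀ A B : ℤ, 4 * A ^ 3 + 27 * B ^ 2 ≠ 0 →
  Module.rank ℤ (ShK (A : F) (B : F)).toAffine.Point ≤
    ∑ T : Finset (Fin r), Module.rank ℤ
      (Sh ((∏ i ∈ T, d i) ^ 2 * A) ((∏ i ∈ T, d i) ^ 3 * B)).toAffine.Point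

end Pool.Agent.W307.RS
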