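import Mathlib
import Pool.Agent.W307.RS.Stm
import Pool.Agent.W262.RK.MA4

/-! Project RS: the main average for the moments. -/

namespace Pool.Agent.W307.RS

open Finset Pool.Agent.W262.RK Pool.Agent.W307.RT

variable {J : Type} [Fintype J] [DecidableEq J]

lemma cst_ne {κ : Fin 3 → ℤ} (h : ∀ k, κ k ≠ 0) (v x : Bool × Bool) : cst κ v x ≠ 0 := by
  unfold cst
  split_ifs <;> simp [h, mul_ne_zero]

omit [Fintype J] [DecidableEq J] in
lemma κK_ne (k : ℕ) (κ : J → Fin 3 → ℤ) (h : ∀ j k, κ j k ≠ 0) (i : IK k J) : κK k κ i ≠ 0 :=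
  prod_ne_zero_iff.2 fun _ _ => cst_ne (h _) _ _

omit [Fintype J] [DecidableEq J] in
lemma LK_self (k : ℕ) (i : IK k J) : LK k i i = false := by
  unfold LK
  rw [decide_eq_false_iff_not, i.2]
  norm_num

/-- the average of the moments -/
theorem mak_of (hexp : EXPK) (hcomb : COMBK) : MAK := by
  intro J _ _ k κ hk hκ
  obtain ⟨z0, hz0⟩ := at_thm (IK k J) (fun _ => 1 / 4 ^ k) (LK k) (κK k κ) (Fintype.card J)
    ((Fintype.card J : ℕ) : ℝ)
    (fun _ => ⟨by positivity, by
      rw [div_le_div_iff₀ (by positivity) (by norm_num)]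
      have : (4 : ℝ) ^ 1 ≤ 4 ^ k := pow_le_pow_right₀ (by norm_num) hk
      linarith⟩) (LK_self k) (κK_ne k κ hκ) (fun U hU => by
      rw [sum_const, nsmul_eq_mul]
      have h1 : ((U.card : ℕ) : ℝ) ≤ ((4 ^ k * Fintype.card J : ℕ) : ℝ) := by
        exact_mod_cast hcomb J k U hU
      push_cast at h1
      rw [mul_one_div, div_le_iff₀ (by positivity)]
      linarith)
  refine ⟨max z0 (2 + ∑ j, ∑ k, (κ j k).natAbs), fun z hz => ?_⟩
  obtain ⟨C, hC⟩ := hz0 z (le_trans (le_max_left _ _) hz)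
  refine ⟨C, fun y hy => ?_⟩
  have hz2 : 2 + ∑ j, ∑ k, (κ j k).natAbs ≤ z := le_trans (le_max_right _ _) hz
  rw [hexp J k κ (Fintype.card J) z y (by omega) hκ (fun j k => by
    have h1 := single_le_sum (f := fun k => (κ j k).natAbs) (fun _ _ => Nat.zero_le _) (mem_univ k)
    have h2 := single_le_sum (f := fun j => ∑ k, (κ j k).natAbs) (fun _ _ => Nat.zero_le _)
      (mem_univ j)
    omega)]
  refine (le_trans (le_abs_self _) (hC y hy)).trans (le_of_eq ?_)
  rw [Real.rpow_natCast]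

end Pool.Agent.W307.RS
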