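import Mathlib
import Pool.Agent.W307.RS.Mak
import Pool.Agent.W261.RT.Iso

/-! Project RS: from the moments to the twists of a curve with full 2-torsion. -/

namespace Pool.Agent.W307.RS

open Finset Pool.Agent.W262.RK Pool.Agent.W307.RT

/-- the quadratic twist of `y² = x³ + A x + B` by `d` -/
lemma tw_rank {A B e1 e2 e3 : ℤ}
    (h : ∀ x : ℤ, x ^ 3 + A * x + B = (x - e1) * (x - e2) * (x - e3)) (d : ℤ) :
    Module.finrank ℤ (Sh (d ^ 2 * A) (d ^ 3 * B)).toAffine.Point =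
      Module.finrank ℤ (EAB ((e2 - e1) * d) ((e3 - e1) * d)).toAffine.Point := by
  have h0 := h 0
  have h1 := h 1
  have h2 := h (-1)
  have hs : e1 + e2 + e3 = 0 := by linarith
  have hA : A = e1 * e2 + e1 * e3 + e2 * e3 := by linarith
  have hB : B = -(e1 * e2 * e3) := by linarith
  have he3 : e3 = -e1 - e2 := by linarith
  obtain ⟨φ⟩ := Pool.Agent.W261.RT.iso 0 ((d ^ 2 * A : ℤ) : ℚ) ((d ^ 3 * B : ℤ) : ℚ)
    ((d * e1 : ℤ) : ℚ) 1 one_ne_zero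
  have hW : (⟨0, ((0 : ℚ) + 3 * ((d * e1 : ℤ) : ℚ)) / (1 : ℚ) ^ 2, 0,
      (((d ^ 2 * A : ℤ) : ℚ) + 2 * ((d * e1 : ℤ) : ℚ) * 0 + 3 * ((d * e1 : ℤ) : ℚ) ^ 2) /
        (1 : ℚ) ^ 4,
      (((d ^ 3 * B : ℤ) : ℚ) + ((d * e1 : ℤ) : ℚ) * ((d ^ 2 * A : ℤ) : ℚ) +
        ((d * e1 : ℤ) : ℚ) ^ 2 * 0 + ((d * e1 : ℤ) : ℚ) ^ 3) / (1 : ℚ) ^ 6⟩ :
      WeierstrassCurve ℚ) = EAB ((e2 - e1) * d) ((e3 - e1) * d) := by
    unfold EAB
    subst hA hB he3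
    simp only [WeierstrassCurve.mk.injEq, true_and]
    refine ⟨?_, ?_, ?_⟩ <;> push_cast <;> ring
  rw [hW] at φ
  exact LinearEquiv.finrank_eq φ.toIntLinearEquiv

/-- the moments of the ranks of the twists -/
theorem final2_of (hK : AVGK) {A B e1 e2 e3 : ℤ} (hD : 4 * A ^ 3 + 27 * B ^ 2 ≠ 0)
    (h : ∀ x : ℤ, x ^ 3 + A * x + B = (x - e1) * (x - e2) * (x - e3))
    (m : ℕ) (γ δ : Fin m → ℤ) (hγ : ∀ i, γ i ≠ 0)
    (hγδ : ∀ i j, i ≠ j → γ i * δ j ≠ γ j * δ i) (k L : ℕ) :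
    ∃ C : ℝ, ∀ (N : ℤ) (M : ℕ), 1 ≤ M → |N| ≤ (M : ℤ) ^ L →
      ∑ t ∈ (Ioc N (N + M)).filter (fun t => ∏ i, (γ i * t + δ i) ≠ 0),
        ((2 : ℝ) ^ Module.finrank ℤ (Sh ((∏ i, (γ i * t + δ i)) ^ 2 * A)
          ((∏ i, (γ i * t + δ i)) ^ 3 * B)).toAffine.Point) ^ k ≤ C * M := by
  have h0 := h 0
  have h1 := h 1
  have h2 := h (-1)
  have hs : e1 + e2 + e3 = 0 := by linarith
  have hA : A = e1 * e2 + e1 * e3 + e2 * e3 := by linarith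
  have hB : B = -(e1 * e2 * e3) := by linarith
  have he3 : e3 = -e1 - e2 := by linarith
  have hdisc : 4 * A ^ 3 + 27 * B ^ 2 = -((e1 - e2) * (e1 - e3) * (e2 - e3)) ^ 2 := by
    rw [hA, hB, he3]; ring
  rw [hdisc] at hD
  have h12 : e2 - e1 ≠ 0 := by
    intro h'; apply hD; rw [show e1 - e2 = -(e2 - e1) by ring, h']; ring
  have h13 : e3 - e1 ≠ 0 := by
    intro h'; apply hD; rw [show e1 - e3 = -(e3 - e1) by ring, h']; ring
  have h23 : e2 - e3 ≠ 0 := by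
    intro h'; apply hD; rw [h']; ring
  obtain ⟨C, hC⟩ := hK (Fin m) ![e2 - e1, e3 - e1, e2 - e3] γ δ (k + 1) L
    (by
      intro i
      fin_cases i
      · exact h12
      · exact h13
      · exact h23)
    (by
      change (e2 - e1) - (e3 - e1) = e2 - e3
      ring) hγ (fun i j hij => by
      unfold Res
      exact sub_ne_zero.2 (hγδ i j hij)) (by omega)
  refine ⟨C, fun N M hM hN => ?_⟩
  have hN' : N.natAbs ≤ M ^ L := by
    have : ((N.natAbs : ℕ) : ℤ) ≤ ((M ^ L : ℕ) : ℤ) := by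
      rw [Int.natCast_natAbs]
      push_cast
      exact hN
    exact_mod_cast this
  set g : ℤ → ℝ := fun t => ((2 : ℝ) ^ Module.finrank ℤ (EAB ((![e2 - e1, e3 - e1, e2 - e3] :
    Fin 3 → ℤ) 0 * ∏ j, ff γ δ t j) ((![e2 - e1, e3 - e1, e2 - e3] : Fin 3 → ℤ) 1 *
      ∏ j, ff γ δ t j)).toAffine.Point) ^ (k + 1) with hg
  have hinj : Set.InjOn (fun t : ℕ => N + (t : ℤ)) ((Icc 1 M).filter
      (fun t : ℕ => ∀ j, ff γ δ (N + (t : ℤ)) j ≠ 0) : Set ℕ) := by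
    intro a _ b _ hab
    have : N + (a : ℤ) = N + (b : ℤ) := hab
    omega
  have hsum : ∑ t ∈ (Icc 1 M).filter (fun t : ℕ => ∀ j, ff γ δ (N + (t : ℤ)) j ≠ 0),
      g (N + (t : ℤ)) = ∑ t ∈ ((Icc 1 M).filter
        (fun t : ℕ => ∀ j, ff γ δ (N + (t : ℤ)) j ≠ 0)).image (fun t : ℕ => N + (t : ℤ)), g t :=
    (sum_image hinj).symm
  have hE : ∑ t ∈ (Icc 1 M).filter (fun t : ℕ => ∀ j, ff γ δ (N + (t : ℤ)) j ≠ 0),
      g (N + (t : ℤ)) ≤ C * M := by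
    convert hC N M hM hN'
  refine le_trans ?_ hE
  rw [hsum]
  refine le_trans (sum_le_sum (g := g) fun t _ => ?_) (sum_le_sum_of_subset_of_nonneg ?_ ?_)
  · rw [tw_rank h]
    exact pow_le_pow_right₀ (one_le_pow₀ (by norm_num)) (Nat.le_succ k)
  · intro t ht
    rw [mem_filter, mem_Ioc] at ht
    obtain ⟨⟨ht1, ht2⟩, ht3⟩ := ht
    rw [mem_image]
    refine ⟨(t - N).toNat, ?_, ?_⟩
    · rw [mem_filter, mem_Icc]
      have h5 : N + (((t - N).toNat : ℕ) : ℤ) = t := by omega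
      refine ⟨by omega, fun j => ?_⟩
      rw [h5]
      exact prod_ne_zero_iff.1 ht3 j (mem_univ j)
    · show N + (((t - N).toNat : ℕ) : ℤ) = t
      omega
  · intro t _ _
    positivity

end Pool.Agent.W307.RS
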