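import Mathlib
import Pool.Agent.W307.RS.Final2
import Pool.Agent.W125.RS.ExpK
import Pool.Agent.W12.RS.CombK
import Pool.Agent.W925.RS.SUBBK
import Pool.Agent.W925.RS.AVGK
import Pool.Agent.W337.RS.CNT4U
import Pool.Agent.W214.RS.Rank4b
import Pool.Agent.W305.RS.ANTU
import Pool.Agent.W924.RS.RSA
import Pool.Agent.W240.RS.RVA
import Pool.Agent.W340.RT.SVR2
import Pool.Agent.W591.RK2.RVRU
import Pool.Agent.W358.RK2.GR

/-! Project RS: the moments of the twists in short intervals. -/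

namespace Pool.Agent.W307.RS

open Finset Pool.Agent.W262.RK Pool.Agent.W307.RT

/-- the summation theorem -/
theorem antu : ANTU :=
  Pool.Agent.W305.RS.ANTU.antu_of Pool.Agent.W924.RS.rsa Pool.Agent.W240.RS.rva
    Pool.Agent.W591.RK2.ru Pool.Agent.W358.RK2.gr

/-- the moments in short intervals -/
theorem avgk : AVGK :=
  Pool.Agent.W925.RS.avgk_of (Pool.Agent.W337.RS.cnt4u_of Pool.Agent.W340.RT.SVR2.svr2)
    Pool.Agent.W214.RS.rank4b antu Pool.Agent.W925.RS.subbk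
    (mak_of Pool.Agent.W125.RS.expk Pool.Agent.W12.RS.combk)

/-- the moments of the ranks of the twists -/
theorem final2 {A B e1 e2 e3 : ℤ} (hD : 4 * A ^ 3 + 27 * B ^ 2 ≠ 0)
    (h : ∀ x : ℤ, x ^ 3 + A * x + B = (x - e1) * (x - e2) * (x - e3))
    (m : ℕ) (γ δ : Fin m → ℤ) (hγ : ∀ i, γ i ≠ 0)
    (hγδ : ∀ i j, i ≠ j → γ i * δ j ≠ γ j * δ i) (k L : ℕ) :
    ∃ C : ℝ, ∀ (N : ℤ) (M : ℕ), 1 ≤ M → |N| ≤ (M : ℤ) ^ L →
      ∑ t ∈ (Ioc N (N + M)).filter (fun t => ∏ i, (γ i * t + δ i) ≠ 0),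
        ((2 : ℝ) ^ Module.finrank ℤ (Sh ((∏ i, (γ i * t + δ i)) ^ 2 * A)
          ((∏ i, (γ i * t + δ i)) ^ 3 * B)).toAffine.Point) ^ k ≤ C * M :=
  final2_of avgk hD h m γ δ hγ hγδ k L

end Pool.Agent.W307.RS
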