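import Mathlib
import Pool.Agent.W307.RS.Stm

/-! Project RS: from the regions to the curves ordered by the minimal discriminant. -/

namespace Pool.Agent.W307.RS

open Finset Pool.Agent.W262.RK Pool.Agent.W307.RT

lemma GG_nonneg (M N : ℤ → ℤ → ℤ) (t : ℤ × ℤ) : 0 ≤ GG M N t := by
  unfold GG
  split_ifs
  · positivity
  · exact le_rfl

/-- the curves of small height have small minimal discriminant -/
lemma Cv_sub (hM : MDL) (m H Z : ℕ) (h : 32 * H ≤ Z) : (Cv m H : Set (ℤ × ℤ)) ⊆ DvS m Z := by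
  classical
  intro c hc
  rw [mem_coe] at hc
  unfold Cv at hc
  rw [mem_filter] at hc
  obtain ⟨-, h1, h2, h3, h4, h5⟩ := hc
  refine ⟨h1, h4, h5, ?_⟩
  refine ((hM c.1 c.2 h1 h4).2.trans ?_).trans h
  have h6 : ((16 * (4 * c.1 ^ 3 + 27 * c.2 ^ 2)).natAbs : ℤ) ≤ ((32 * H : ℕ) : ℤ) := by
    rw [Int.natCast_natAbs, abs_mul]
    have h7 : |4 * c.1 ^ 3 + 27 * c.2 ^ 2| ≤ 4 * |c.1| ^ 3 + 27 * c.2 ^ 2 := by
      refine (abs_add_le _ _).trans ?_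
      rw [abs_mul, abs_pow, abs_mul, abs_of_nonneg (sq_nonneg c.2)]
      norm_num
    push_cast
    have h8 : |(16 : ℤ)| = 16 := by norm_num
    rw [h8]
    linarith
  exact_mod_cast h6

/-- from the regions to the curves -/
lemma finalD_of {m k d : ℕ} {M N : ℤ → ℤ → ℤ} (hd : 1 ≤ d) (hk : k = 2 * d) (hP : PARD m M N)
    (hM : MDL) (hL : LOW m k)
    (hreg : ∃ C : ℝ, 0 ≤ C ∧ ∀ W : ℕ, 1 ≤ W → ∀ S : Finset (ℤ × ℤ),
      (∀ t ∈ S, M t.1 t.2 ≠ 0 ∧ N t.1 t.2 ≠ 0 ∧ M t.1 t.2 ≠ N t.1 t.2 ∧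
        (M t.1 t.2 * N t.1 t.2 * (M t.1 t.2 - N t.1 t.2)).natAbs ≤ W ^ d) →
      ∑ t ∈ S, GG M N t ≤ C * (W : ℝ) ^ 2) :
    ∃ C : ℝ, ∀ Z : ℕ, (DvS m Z).Finite ∧ ∀ S : Finset (ℤ × ℤ), (S : Set (ℤ × ℤ)) = DvS m Z →
      ∑ c ∈ S, (2 : ℝ) ^ Module.finrank ℤ (Sh c.1 c.2).toAffine.Point ≤ C * S.card := by
  classical
  obtain ⟨C0', F, hF⟩ := hP
  obtain ⟨c, C1, T0, hc, hlow⟩ := hL
  obtain ⟨C, hC, hb⟩ := hreg
  set C0 := C0' + 1 with hC0
  set D := C0 * (32 * C1) + 1 with hD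
  have hD1 : 1 ≤ D := by omega
  -- the sum is at most `C W ^ 2`
  have hsum : ∀ Z W : ℕ, 1 ≤ W → C0 * Z ≤ W ^ k → ∀ S : Finset (ℤ × ℤ),
      (S : Set (ℤ × ℤ)) ⊆ DvS m Z →
      ∑ x ∈ S, (2 : ℝ) ^ Module.finrank ℤ (Sh x.1 x.2).toAffine.Point ≤ C * (W : ℝ) ^ 2 := by
    intro Z W hW hZW S hS
    obtain ⟨hinj, h2⟩ := hF Z
    have h3 : ∑ x ∈ S, (2 : ℝ) ^ Module.finrank ℤ (Sh x.1 x.2).toAffine.Point =
        ∑ t ∈ S.image F, GG M N t := by
      rw [sum_image (hinj.mono hS)]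
      apply sum_congr rfl
      intro x hx'
      obtain ⟨a1, a2, a3, a4, _, a6⟩ := h2 x (hS hx')
      unfold GG
      rw [if_pos ⟨a1, a2, a3, a4⟩, a6]
    rw [h3]
    apply hb W hW
    intro t ht
    obtain ⟨x, hx', rfl⟩ := mem_image.1 ht
    obtain ⟨a1, a2, a3, a4, a5, _⟩ := h2 x (hS hx')
    refine ⟨a2, a3, a4, ?_⟩
    have h4 : (M (F x).1 (F x).2 * N (F x).1 (F x).2 *
        (M (F x).1 (F x).2 - N (F x).1 (F x).2)).natAbs ^ 2 ≤ (W ^ d) ^ 2 := by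
      calc _ ≤ C0' * Z := a5
        _ ≤ C0 * Z := Nat.mul_le_mul_right _ (by omega)
        _ ≤ W ^ k := hZW
        _ = (W ^ d) ^ 2 := by rw [hk, ← pow_mul, mul_comm]
    exact (Nat.pow_le_pow_iff_left (by norm_num)).1 h4
  have hone : ∀ S : Finset (ℤ × ℤ), (S.card : ℝ) ≤
      ∑ x ∈ S, (2 : ℝ) ^ Module.finrank ℤ (Sh x.1 x.2).toAffine.Point := by
    intro S
    have h1 : ∑ x ∈ S, (1 : ℝ) = S.card := by simp
    rw [← h1]
    exact sum_le_sum fun x _ => one_le_pow₀ (by norm_num)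
  -- the choice of `W`
  have hWex : ∀ Z : ℕ, ∃ T : ℕ, T ^ k ≤ C0 * Z ∧ C0 * Z ≤ (T + 1) ^ k := by
    intro Z
    refine ⟨Nat.findGreatest (fun t => t ^ k ≤ C0 * Z) (C0 * Z), ?_, ?_⟩
    · exact Nat.findGreatest_spec (P := fun t => t ^ k ≤ C0 * Z) (Nat.zero_le _)
        (by rw [zero_pow (by omega)]; exact Nat.zero_le _)
    · by_contra hcon
      push Not at hcon
      have h1 : Nat.findGreatest (fun t => t ^ k ≤ C0 * Z) (C0 * Z) + 1 ≤
          Nat.findGreatest (fun t => t ^ k ≤ C0 * Z) (C0 * Z) := by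
        apply Nat.le_findGreatest
        · exact (Nat.le_self_pow (by omega) _).trans hcon.le
        · exact hcon.le
      omega
  have hfin : ∀ Z : ℕ, (DvS m Z).Finite := by
    intro Z
    obtain ⟨T, _, h2⟩ := hWex Z
    by_contra hinf
    obtain ⟨n, hn⟩ := exists_nat_gt (C * ((T + 1 : ℕ) : ℝ) ^ 2)
    obtain ⟨S, hS, hcard⟩ := Set.Infinite.exists_subset_card_eq hinf n
    have h3 := (hone S).trans (hsum Z (T + 1) (by omega) h2 S hS)
    rw [hcard] at h3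
    linarith
  refine ⟨C * ((D * (T0 + 1) + 1 : ℕ) : ℝ) ^ 2 + C * (4 * (D : ℝ)) ^ 2 / c, fun Z => ⟨hfin Z, ?_⟩⟩
  intro S hS
  set K := S.card with hK
  by_cases hK0 : K = 0
  · have : S = ∅ := card_eq_zero.1 hK0
    rw [this, sum_empty, hK0]
    simp
  have hK1 : (1 : ℝ) ≤ K := by exact_mod_cast Nat.one_le_iff_ne_zero.2 hK0
  have hq0 : 0 ≤ C * (4 * (D : ℝ)) ^ 2 / c := by positivity
  have hr0 : 0 ≤ C * ((D * (T0 + 1) + 1 : ℕ) : ℝ) ^ 2 := by positivity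
  obtain ⟨T, hTk, hTW⟩ := hWex Z
  rcases Nat.lt_or_ge T (D * (T0 + 1)) with hlt | hge
  · have h1 := hsum Z (D * (T0 + 1) + 1) (by omega)
      (hTW.trans (Nat.pow_le_pow_left (by omega) k)) S hS.le
    calc _ ≤ C * ((D * (T0 + 1) + 1 : ℕ) : ℝ) ^ 2 := h1
      _ ≤ C * ((D * (T0 + 1) + 1 : ℕ) : ℝ) ^ 2 * K := le_mul_of_one_le_right hr0 hK1
      _ ≤ _ := by
        apply mul_le_mul_of_nonneg_right _ (by linarith)
        linarith
  · have h1 := hsum Z (T + 1) (by omega) hTW S hS.le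
    set T' := T / D with hT'
    have hT'0 : T0 + 1 ≤ T' := by
      rw [hT', Nat.le_div_iff_mul_le hD1, mul_comm]
      exact hge
    have h2 : T' * D ≤ T := Nat.div_mul_le_self T D
    have h3 : 32 * (C1 * T' ^ k) ≤ Z := by
      have a1 : (T' * D) ^ k ≤ C0 * Z := (Nat.pow_le_pow_left h2 k).trans hTk
      rw [mul_pow] at a1
      have a2 : D ≤ D ^ k := Nat.le_self_pow (by omega) D
      have a3 : T' ^ k * (C0 * (32 * C1)) ≤ C0 * Z :=
        (Nat.mul_le_mul_left _ (by omega : C0 * (32 * C1) ≤ D ^ k)).trans a1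
      have a4 : C0 * (32 * (C1 * T' ^ k)) ≤ C0 * Z := by
        calc C0 * (32 * (C1 * T' ^ k)) = T' ^ k * (C0 * (32 * C1)) := by ring
          _ ≤ _ := a3
      exact Nat.le_of_mul_le_mul_left a4 (by omega)
    have h4 := hlow T' (C1 * T' ^ k) (by omega) le_rfl
    have h4' : (Cv m (C1 * T' ^ k)).card ≤ K := by
      apply card_le_card
      rw [← coe_subset, hS]
      exact Cv_sub hM m _ Z h3
    have h4'' : c * (T' : ℝ) ^ 2 ≤ K := h4.trans (by exact_mod_cast h4')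
    have h5 : T + 1 ≤ 4 * D * T' := by
      have a1 : T < D * (T' + 1) := by
        rw [mul_comm]
        exact Nat.lt_mul_of_div_lt (by rw [← hT']; omega) hD1
      have a2 : D * (T' + 1) ≤ 2 * D * T' := by nlinarith
      have a3 : 2 * D * T' ≤ 4 * D * T' := by nlinarith
      omega
    have h6 : ((T + 1 : ℕ) : ℝ) ≤ 4 * D * T' := by exact_mod_cast h5
    calc _ ≤ C * ((T + 1 : ℕ) : ℝ) ^ 2 := h1
      _ ≤ C * (4 * D * T') ^ 2 := by
        apply mul_le_mul_of_nonneg_left _ hC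
        exact pow_le_pow_left₀ (Nat.cast_nonneg _) h6 2
      _ = C * (4 * (D : ℝ)) ^ 2 / c * (c * (T' : ℝ) ^ 2) := by
        field_simp
      _ ≤ C * (4 * (D : ℝ)) ^ 2 / c * K := mul_le_mul_of_nonneg_left h4'' hq0
      _ ≤ _ := by
        apply mul_le_mul_of_nonneg_right _ (by linarith)
        linarith

end Pool.Agent.W307.RS
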