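import Mathlib
import Pool.Agent.W307.RS.FinalD
import Pool.Agent.W307.RT.Main4
import Pool.Agent.W481.RS.Stm1

/-! Project RS: the regions for the two families. -/

namespace Pool.Agent.W307.RS

open Finset Pool.Agent.W262.RK Pool.Agent.W307.RT

/-- the linear forms for `Z/2 x Z/4` -/
def aa4 : Fin 4 → ℤ := ![1, 0, 1, 1]
/-- the linear forms for `Z/2 x Z/4` -/
def bb4 : Fin 4 → ℤ := ![0, 1, -1, 1]
/-- the multiplicities for `Z/2 x Z/4` -/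
def mm4 : Fin 4 → ℕ := ![2, 2, 1, 1]

/-- the linear forms for `Z/2 x Z/6` -/
def aa6 : Fin 6 → ℤ := ![1, 0, 1, 1, 2, 1]
/-- the linear forms for `Z/2 x Z/6` -/
def bb6 : Fin 6 → ℤ := ![0, 1, 1, 2, 1, -1]
/-- the multiplicities for `Z/2 x Z/6` -/
def mm6 : Fin 6 → ℕ := ![3, 3, 3, 1, 1, 1]

lemma reg_of {J : Type} [Fintype J] [DecidableEq J] [Nonempty J]
    (hcov : Pool.Agent.W481.RS.COV1) (α β : J → ℤ) (m : J → ℕ) (d : ℕ)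
    (M N : ℤ → ℤ → ℤ) (hres : ∀ j l, j ≠ l → Res α β j l ≠ 0) (hm : ∀ j, 1 ≤ m j)
    (hm2 : ∀ j, 2 * m j < ∑ i, m i) (hd : ∑ i, m i = d)
    (hprod : ∀ u v : ℤ, ∏ j, (fv α β u v j) ^ m j = M u v * N u v * (M u v - N u v))
    (hsq : ∀ B : ℕ, ∃ C : ℝ, ∀ (N1 N2 : ℤ) (X : ℕ), 1 ≤ X → N1.natAbs ≤ X ^ B →
      N2.natAbs ≤ X ^ B →
      ∑ t ∈ Icc 1 X ×ˢ Icc 1 X, GG M N (N1 + (t.1 : ℤ), N2 + (t.2 : ℤ)) ≤ C * X ^ 2) :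
    ∃ C : ℝ, 0 ≤ C ∧ ∀ W : ℕ, 1 ≤ W → ∀ S : Finset (ℤ × ℤ),
      (∀ t ∈ S, M t.1 t.2 ≠ 0 ∧ N t.1 t.2 ≠ 0 ∧ M t.1 t.2 ≠ N t.1 t.2 ∧
        (M t.1 t.2 * N t.1 t.2 * (M t.1 t.2 - N t.1 t.2)).natAbs ≤ W ^ d) →
      ∑ t ∈ S, GG M N t ≤ C * (W : ℝ) ^ 2 := by
  obtain ⟨C, hC, h⟩ := hcov J α β m (GG M N) hres hm hm2 (GG_nonneg M N) hsq
  refine ⟨C, hC, fun W hW S hS => h W hW S fun t ht => ?_⟩
  obtain ⟨h1, h2, h3, h4⟩ := hS t ht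
  have h5 := hprod t.1 t.2
  refine ⟨fun j hj => ?_, ?_⟩
  · have h6 : ∏ j, (fv α β t.1 t.2 j) ^ m j = 0 :=
      prod_eq_zero (mem_univ j) (by rw [hj, zero_pow (by have := hm j; omega)])
    rw [h5] at h6
    rcases mul_eq_zero.1 h6 with h7 | h7
    · rcases mul_eq_zero.1 h7 with h8 | h8
      · exact h1 h8
      · exact h2 h8
    · exact h3 (sub_eq_zero.1 h7)
  · rw [hd]
    have h6 : ∏ j, (fv α β t.1 t.2 j).natAbs ^ m j =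
        (∏ j, (fv α β t.1 t.2 j) ^ m j).natAbs := by
      rw [← Int.natAbsHom_apply, map_prod]
      exact prod_congr rfl fun j _ => (Int.natAbs_pow _ _).symm
    rw [h6, h5]
    exact h4

lemma reg4 (hcov : Pool.Agent.W481.RS.COV1) (hfam : FAMS) :
    ∃ C : ℝ, 0 ≤ C ∧ ∀ W : ℕ, 1 ≤ W → ∀ S : Finset (ℤ × ℤ),
      (∀ t ∈ S, M4 t.1 t.2 ≠ 0 ∧ N4 t.1 t.2 ≠ 0 ∧ M4 t.1 t.2 ≠ N4 t.1 t.2 ∧
        (M4 t.1 t.2 * N4 t.1 t.2 * (M4 t.1 t.2 - N4 t.1 t.2)).natAbs ≤ W ^ 6) →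
      ∑ t ∈ S, GG M4 N4 t ≤ C * (W : ℝ) ^ 2 := by
  refine reg_of hcov aa4 bb4 mm4 6 M4 N4 (by decide) (by decide) (by decide) (by decide)
    (fun u v => ?_) ?_
  · rw [Fin.prod_univ_four]
    unfold M4 N4
    change (1 * u + 0 * v) ^ 2 * (0 * u + 1 * v) ^ 2 * (1 * u + -1 * v) ^ 1 *
      (1 * u + 1 * v) ^ 1 = _
    ring
  · exact hfam (Fin 4) c4 (fun _ => -1) m4 α4 β4 (by decide) (by decide) (by decide) (by decide)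
      (by decide) (by decide) (fun j => by revert j; decide)
      (fun u v => by rw [FM40, FM41, FM42]; ring) nb4 2 M4 N4 FM40 FM41

lemma reg6 (hcov : Pool.Agent.W481.RS.COV1) (hfam : FAMS) :
    ∃ C : ℝ, 0 ≤ C ∧ ∀ W : ℕ, 1 ≤ W → ∀ S : Finset (ℤ × ℤ),
      (∀ t ∈ S, M6 t.1 t.2 ≠ 0 ∧ N6 t.1 t.2 ≠ 0 ∧ M6 t.1 t.2 ≠ N6 t.1 t.2 ∧
        (M6 t.1 t.2 * N6 t.1 t.2 * (M6 t.1 t.2 - N6 t.1 t.2)).natAbs ≤ W ^ 12) →
      ∑ t ∈ S, GG M6 N6 t ≤ C * (W : ℝ) ^ 2 := by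
  refine reg_of hcov aa6 bb6 mm6 12 M6 N6 (by decide) (by decide) (by decide) (by decide)
    (fun u v => ?_) ?_
  · rw [Fin.prod_univ_six]
    unfold M6 N6
    change (1 * u + 0 * v) ^ 3 * (0 * u + 1 * v) ^ 3 * (1 * u + 1 * v) ^ 3 *
      (1 * u + 2 * v) ^ 1 * (2 * u + 1 * v) ^ 1 * (1 * u + -1 * v) ^ 1 = _
    ring
  · exact hfam (Fin 6) c6 (fun _ => -1) m6 α6 β6 (by decide) (by decide) (by decide) (by decide)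
      (by decide) (by decide) (fun j => Or.inl (by revert j; decide))
      (fun u v => by rw [FM60, FM61, FM62]; ring)
      (ma4 Pool.Agent.W762.RK2.exp4 Pool.Agent.W125.RK2.comb4 c6 _ 2 _ (by decide)
        (fun j _ => by revert j; decide)) 3 M6 N6
      (fun u v => by rw [FM60]; norm_num) (fun u v => by rw [FM61]; norm_num)

end Pool.Agent.W307.RS
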