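import Mathlib
import Pool.Agent.W307.RS.Reg
import Pool.Agent.W307.RS.MainK
import Pool.Agent.W12.RS.LC
import Pool.Agent.W12.RS.Rank2B
import Pool.Agent.W481.RS.Cov
import Pool.Agent.W782.RS.Avg2s
import Pool.Agent.W839.RS.CNT2S
import Pool.Agent.W405.RS.AVHS
import Pool.Agent.W397.RS.FAMS
import Pool.Agent.W554.RS.MDL
import Pool.Agent.W500.RS.PARD4
import Pool.Agent.W806.RS.PARD6
import Pool.Agent.W571.RT.LocM
import Pool.Agent.W29.RT.LOW4
import Pool.Agent.W376.RTL.Low6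

/-! Project RS: the curves ordered by the minimal discriminant. -/

namespace Pool.Agent.W307.RS

open Finset Pool.Agent.W262.RK Pool.Agent.W307.RT

/-- the averages over the coprime pairs of short squares -/
theorem avg2s : AVG2S :=
  Pool.Agent.W782.RS.avg2s_of (Pool.Agent.W12.RS.rank2b_of Pool.Agent.W571.RT.locm)
    (Pool.Agent.W839.RS.cnt2s_of Pool.Agent.W340.RT.SVR2.svr2 Pool.Agent.W405.RS.avhs) antu

/-- from the short squares to the regions -/
theorem cov : Pool.Agent.W481.RS.COV1 := Pool.Agent.W481.RS.cov_of Pool.Agent.W12.RS.lc1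

/-- **the curves with `Z/2 x Z/4` ordered by the minimal discriminant** -/
theorem disc4 : ∃ C : ℝ, ∀ Z : ℕ, (DvS 4 Z).Finite ∧ ∀ S : Finset (ℤ × ℤ),
    (S : Set (ℤ × ℤ)) = DvS 4 Z →
      ∑ c ∈ S, (2 : ℝ) ^ Module.finrank ℤ (Sh c.1 c.2).toAffine.Point ≤ C * S.card :=
  finalD_of (k := 12) (d := 6) (by norm_num) rfl
    (Pool.Agent.W500.RS.pard4_of Pool.Agent.W261.RT.iso Pool.Agent.W554.RS.mdl)
    Pool.Agent.W554.RS.mdl Pool.Agent.W29.RT.low4
    (reg4 cov (Pool.Agent.W397.RS.fams_of avg2s))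

/-- **the curves with `Z/2 x Z/6` ordered by the minimal discriminant** -/
theorem disc6 : ∃ C : ℝ, ∀ Z : ℕ, (DvS 6 Z).Finite ∧ ∀ S : Finset (ℤ × ℤ),
    (S : Set (ℤ × ℤ)) = DvS 6 Z →
      ∑ c ∈ S, (2 : ℝ) ^ Module.finrank ℤ (Sh c.1 c.2).toAffine.Point ≤ C * S.card :=
  finalD_of (k := 24) (d := 12) (by norm_num) rfl
    (Pool.Agent.W806.RS.pard6_of Pool.Agent.W261.RT.iso Pool.Agent.W554.RS.mdl)
    Pool.Agent.W554.RS.mdl Pool.Agent.W376.RTL.low6
    (reg6 cov (Pool.Agent.W397.RS.fams_of avg2s))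

end Pool.Agent.W307.RS
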