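import Mathlib
import Pool.Agent.W307.RS.Reg

/-! Project RS: the twists of the curves with `Z/2 x Z/6` by a fixed number. -/

namespace Pool.Agent.W307.RS

open Finset Pool.Agent.W262.RK Pool.Agent.W307.RT

/-- from the box to the curves, for a general function of the curve -/
lemma final_gen {m k : ℕ} (hk : 1 ≤ k) (hL : LOW m k) (C0' : ℕ) (F : ℤ × ℤ → ℤ × ℤ)
    (R g : ℤ × ℤ → ℝ) (hg : ∀ t, 0 ≤ g t)
    (hF : ∀ H : ℕ, Set.InjOn F (Cv m H : Set (ℤ × ℤ)) ∧ ∀ c ∈ Cv m H,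
      (F c).1.natAbs ^ k ≤ C0' * H ∧ (F c).2.natAbs ^ k ≤ C0' * H ∧ R c ≤ g (F c))
    (hbox : ∃ C : ℝ, 0 ≤ C ∧ ∀ T : ℕ, 1 ≤ T → ∑ t ∈ Box T, g t ≤ C * (T : ℝ) ^ 2) :
    ∃ C : ℝ, ∀ H : ℕ, ∑ c ∈ Cv m H, R c ≤ C * (Cv m H).card := by
  classical
  obtain ⟨c, C1, T0, hc, hlow⟩ := hL
  obtain ⟨C, hC, hb⟩ := hbox
  set C0 := C0' + 1 with hC0
  have hF' : ∀ H : ℕ, ∀ x ∈ Cv m H, (F x).1.natAbs ^ k ≤ C0 * H ∧ (F x).2.natAbs ^ k ≤ C0 * H := by
    intro H x hx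
    obtain ⟨h1, h2, _⟩ := (hF H).2 x hx
    have : C0' * H ≤ C0 * H := Nat.mul_le_mul_right _ (by omega)
    exact ⟨h1.trans this, h2.trans this⟩
  set D := C0 * C1 + 1 with hD
  have hD1 : 1 ≤ D := by omega
  have hsum : ∀ H T : ℕ, 1 ≤ T → (∀ x ∈ Cv m H, (F x).1.natAbs ≤ T ∧ (F x).2.natAbs ≤ T) →
      ∑ x ∈ Cv m H, R x ≤ C * (T : ℝ) ^ 2 := by
    intro H T hT hx
    refine le_trans ?_ (hb T hT)
    obtain ⟨hinj, h2⟩ := hF H
    have h3 : ∑ x ∈ Cv m H, R x ≤ ∑ t ∈ (Cv m H).image F, g t := by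
      rw [sum_image hinj]
      exact sum_le_sum fun x hx' => (h2 x hx').2.2
    refine h3.trans (sum_le_sum_of_subset_of_nonneg ?_ fun t _ _ => hg t)
    intro t ht
    obtain ⟨x, hx', rfl⟩ := mem_image.1 ht
    rw [mem_Box]
    exact hx x hx'
  refine ⟨C * ((D * (T0 + 1) : ℕ) : ℝ) ^ 2 + C * (2 * (D : ℝ)) ^ 2 / c, fun H => ?_⟩
  set K := (Cv m H).card with hK
  by_cases hK0 : K = 0
  · have : Cv m H = ∅ := card_eq_zero.1 hK0
    rw [this, sum_empty, hK0]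
    simp
  have hK1 : (1 : ℝ) ≤ K := by exact_mod_cast Nat.one_le_iff_ne_zero.2 hK0
  have hq0 : 0 ≤ C * (2 * (D : ℝ)) ^ 2 / c := by positivity
  have hr0 : 0 ≤ C * ((D * (T0 + 1) : ℕ) : ℝ) ^ 2 := by positivity
  set T := Nat.findGreatest (fun t => t ^ k ≤ C0 * H) (C0 * H) with hT
  have hle : ∀ x : ℕ, x ^ k ≤ C0 * H → x ≤ T := by
    intro x hx
    apply Nat.le_findGreatest
    · exact (Nat.le_self_pow (by omega) x).trans hx
    · exact hx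
  have hTk : T ^ k ≤ C0 * H := by
    have : (fun t => t ^ k ≤ C0 * H) T :=
      Nat.findGreatest_spec (P := fun t => t ^ k ≤ C0 * H) (Nat.zero_le _)
        (by rw [zero_pow (by omega)]; exact Nat.zero_le _)
    exact this
  have hxT : ∀ x ∈ Cv m H, (F x).1.natAbs ≤ T ∧ (F x).2.natAbs ≤ T := fun x hx =>
    ⟨hle _ (hF' H x hx).1, hle _ (hF' H x hx).2⟩
  rcases Nat.lt_or_ge T (D * (T0 + 1)) with hlt | hge
  · have h1 := hsum H (D * (T0 + 1)) (Nat.mul_pos hD1 (Nat.succ_pos _)) fun x hx =>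
      ⟨(hxT x hx).1.trans hlt.le, (hxT x hx).2.trans hlt.le⟩
    calc _ ≤ C * ((D * (T0 + 1) : ℕ) : ℝ) ^ 2 := h1
      _ ≤ C * ((D * (T0 + 1) : ℕ) : ℝ) ^ 2 * K := le_mul_of_one_le_right hr0 hK1
      _ ≤ _ := by
        apply mul_le_mul_of_nonneg_right _ (by linarith)
        linarith
  · have hT1 : 1 ≤ T := (Nat.mul_pos hD1 (Nat.succ_pos _)).trans_le hge
    have h1 := hsum H T hT1 hxT
    set T' := T / D with hT'
    have hT'0 : T0 + 1 ≤ T' := by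
      rw [hT', Nat.le_div_iff_mul_le hD1, mul_comm]
      exact hge
    have h2 : T' * D ≤ T := Nat.div_mul_le_self T D
    have h3 : C1 * T' ^ k ≤ H := by
      have a1 : (T' * D) ^ k ≤ C0 * H := (Nat.pow_le_pow_left h2 k).trans hTk
      rw [mul_pow] at a1
      have a2 : D ≤ D ^ k := Nat.le_self_pow (by omega) D
      have a3 : T' ^ k * (C0 * C1) ≤ C0 * H :=
        (Nat.mul_le_mul_left _ (by omega : C0 * C1 ≤ D ^ k)).trans a1
      have a4 : C0 * (C1 * T' ^ k) ≤ C0 * H := by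
        calc C0 * (C1 * T' ^ k) = T' ^ k * (C0 * C1) := by ring
          _ ≤ _ := a3
      exact Nat.le_of_mul_le_mul_left a4 (by omega)
    have h4 := hlow T' H (by omega) h3
    have h5 : T ≤ 2 * D * T' := by
      have a1 : T < D * (T' + 1) := by
        rw [mul_comm]
        exact Nat.lt_mul_of_div_lt (by rw [← hT']; omega) hD1
      have a2 : D * (T' + 1) ≤ 2 * D * T' := by nlinarith
      omega
    have h6 : (T : ℝ) ≤ 2 * D * T' := by exact_mod_cast h5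
    calc _ ≤ C * (T : ℝ) ^ 2 := h1
      _ ≤ C * (2 * D * T') ^ 2 := by
        apply mul_le_mul_of_nonneg_left _ hC
        exact pow_le_pow_left₀ (Nat.cast_nonneg T) h6 2
      _ = C * (2 * (D : ℝ)) ^ 2 / c * (c * (T' : ℝ) ^ 2) := by
        field_simp
      _ ≤ C * (2 * (D : ℝ)) ^ 2 / c * K := mul_le_mul_of_nonneg_left h4 hq0
      _ ≤ _ := by
        apply mul_le_mul_of_nonneg_right _ (by linarith)
        linarith

/-- the box for the twists by `d` -/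
theorem box6t {d : ℤ} (hd : d ≠ 0) : ∃ C : ℝ, 0 ≤ C ∧ ∀ T : ℕ, 1 ≤ T →
    ∑ t ∈ Box T, GG (fun u v => d * M6 u v) (fun u v => d * N6 u v) t ≤ C * (T : ℝ) ^ 2 := by
  classical
  have h := fam avg2 c6 (fun _ => -d) m6 α6 β6 (by decide) (fun _ => neg_ne_zero.2 hd) (by decide)
    (by decide) (by decide) (by decide) (fun j => Or.inl (by revert j; decide)) (fun u v => ?_)
    ?_ 3 (fun u v => d * M6 u v) (fun u v => d * N6 u v) (fun u v => ?_) (fun u v => ?_)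
  · obtain ⟨C, hC, h⟩ := h
    refine ⟨C, hC, fun T hT => le_trans (le_of_eq ?_) (h T hT)⟩
    rw [sum_filter]
    refine sum_congr rfl fun t _ => ?_
    unfold GG
    rfl
  · have e0 := FM60 u v
    have e1 := FM61 u v
    have e2 := FM62 u v
    have f : ∀ k, FM c6 (fun _ => -d) m6 (fv α6 β6 u v) k =
        d * FM c6 (fun _ => -1) m6 (fv α6 β6 u v) k := by
      intro k
      unfold FM
      ring
    rw [f, f, f, e0, e1, e2]
    ring
  · refine ma4 Pool.Agent.W762.RK2.exp4 Pool.Agent.W125.RK2.comb4 c6 _ 2 _ (by decide)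
      (fun j _ => ?_)
    unfold kapM
    refine mul_ne_zero ?_ (mul_ne_zero (neg_ne_zero.2 hd) (prod_ne_zero_iff.2 fun l hl => ?_))
    · revert j; decide
    · apply pow_ne_zero
      revert j l
      decide
  · have e0 := FM60 u v
    have f : FM c6 (fun _ => -d) m6 (fv α6 β6 u v) 0 =
        d * FM c6 (fun _ => -1) m6 (fv α6 β6 u v) 0 := by
      unfold FM
      ring
    rw [f, e0]
    push_cast
    ring
  · have e0 := FM61 u v
    have f : FM c6 (fun _ => -d) m6 (fv α6 β6 u v) 1 =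
        d * FM c6 (fun _ => -1) m6 (fv α6 β6 u v) 1 := by
      unfold FM
      ring
    rw [f, e0]
    push_cast
    ring

open Pool.Agent.W135.RT in
/-- the rank of the twist -/
theorem fin_eq_tw {A B u v : ℤ} {s : ℚ} (hR : R6 A B u v s) (d : ℤ) :
    Module.finrank ℤ (Sh (d ^ 2 * A) (d ^ 3 * B)).toAffine.Point =
      Module.finrank ℤ (EAB (-(d * M6 u v)) (-(d * N6 u v))).toAffine.Point := by
  set r : ℚ := s ^ 2 * ((M6 u v : ℚ) + N6 u v) / 3 with hr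
  obtain ⟨e⟩ := Pool.Agent.W261.RT.iso 0 ((d ^ 2 * A : ℤ) : ℚ) ((d ^ 3 * B : ℤ) : ℚ) (d * r) s hR.s0
  have hs := hR.s0
  have h1 : (⟨0, (0 + 3 * (d * r)) / s ^ 2, 0,
      (((d ^ 2 * A : ℤ) : ℚ) + 2 * (d * r) * 0 + 3 * (d * r) ^ 2) / s ^ 4,
      (((d ^ 3 * B : ℤ) : ℚ) + (d * r) * ((d ^ 2 * A : ℤ) : ℚ) + (d * r) ^ 2 * 0 +
        (d * r) ^ 3) / s ^ 6⟩ : WeierstrassCurve ℚ) =
      EAB (-(d * M6 u v)) (-(d * N6 u v)) := by
    have e1 : (0 + 3 * (d * r)) / s ^ 2 = d * ((M6 u v : ℚ) + N6 u v) := by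
      rw [hr]; field_simp; ring
    have e2 : (((d ^ 2 * A : ℤ) : ℚ) + 2 * (d * r) * 0 + 3 * (d * r) ^ 2) / s ^ 4 =
        d ^ 2 * ((M6 u v : ℚ) * N6 u v) := by
      rw [div_eq_iff (pow_ne_zero 4 hs), hr]
      push_cast
      linear_combination (d : ℚ) ^ 2 * (1 / 3) * hR.ea
    have e3 : (((d ^ 3 * B : ℤ) : ℚ) + (d * r) * ((d ^ 2 * A : ℤ) : ℚ) + (d * r) ^ 2 * 0 +
        (d * r) ^ 3) / s ^ 6 = 0 := by
      rw [div_eq_zero_iff]; left
      rw [hr]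
      push_cast
      linear_combination (d : ℚ) ^ 3 * (1 / 27) * hR.eb +
        (d : ℚ) ^ 3 * (1 / 9) * s ^ 2 * ((M6 u v : ℚ) + N6 u v) * hR.ea
    rw [e1, e2, e3]
    unfold EAB
    push_cast
    congr 1 <;> ring
  have h2 := (e.toIntLinearEquiv).finrank_eq
  have h3 : (Sh (d ^ 2 * A) (d ^ 3 * B)) = (⟨0, 0, 0, ((d ^ 2 * A : ℤ) : ℚ),
    ((d ^ 3 * B : ℤ) : ℚ)⟩ : WeierstrassCurve ℚ) := rfl
  rw [h3, h2, h1]

open Pool.Agent.W135.RT in
/-- the average for the twists by `d` -/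
theorem twist6 {d : ℤ} (hd : d ≠ 0) : ∃ C : ℝ, ∀ H : ℕ, ∑ c ∈ Cv 6 H,
    (2 : ℝ) ^ Module.finrank ℤ (Sh (d ^ 2 * c.1) (d ^ 3 * c.2)).toAffine.Point ≤
      C * (Cv 6 H).card := by
  refine final_gen (by norm_num) Pool.Agent.W376.RTL.low6 (147456 ^ 3) FF _ _
    (GG_nonneg _ _) (fun H => ⟨?_, ?_⟩) (box6t hd)
  · intro c hc c' hc' hcc
    obtain ⟨s, hR⟩ := FF_spec hc
    obtain ⟨s', hR'⟩ := FF_spec hc'
    rw [← hcc] at hR'
    have hc1 := memCv (Finset.mem_coe.mp hc)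
    have hc1' := memCv (Finset.mem_coe.mp hc')
    obtain ⟨h1, h2⟩ := inj hR hR' hc1.2.2.2.1 hc1'.2.2.2.1
    exact Prod.ext h1 h2
  · intro c hc
    obtain ⟨s, hR⟩ := FF_spec hc
    have hc1 := memCv hc
    refine ⟨bound2 hR H hc1.2.1 _ (Or.inl rfl), bound2 hR H hc1.2.1 _ (Or.inr rfl), ?_⟩
    unfold GG
    rw [if_pos ⟨hR.cop, mul_ne_zero hd hR.m0, mul_ne_zero hd hR.n0,
      fun h => hR.mn (mul_left_cancel₀ hd h)⟩, fin_eq_tw hR d]

end Pool.Agent.W307.RS
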