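import Mathlib
import Pool.Agent.W307.RS.Twist6
import Pool.Agent.W214.RK.Half

/-! Project RS: ranks over multiquadratic fields. -/

namespace Pool.Agent.W307.RS

open Finset Pool.Agent.W262.RK Pool.Agent.W307.RT

open Pool.Agent.W135.RT in
/-- the groups of points of the twists are finitely generated -/
theorem finite_tw {A B u v : ℤ} {s : ℚ} (hR : R6 A B u v s) {d : ℤ} (hd : d ≠ 0) :
    Module.Finite ℤ (Sh (d ^ 2 * A) (d ^ 3 * B)).toAffine.Point := by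
  set r : ℚ := s ^ 2 * ((M6 u v : ℚ) + N6 u v) / 3 with hr
  obtain ⟨e⟩ := Pool.Agent.W261.RT.iso 0 ((d ^ 2 * A : ℤ) : ℚ) ((d ^ 3 * B : ℤ) : ℚ) (d * r) s hR.s0
  have hs := hR.s0
  have h1 : (⟨0, (0 + 3 * (d * r)) / s ^ 2, 0,
      (((d ^ 2 * A : ℤ) : ℚ) + 2 * (d * r) * 0 + 3 * (d * r) ^ 2) / s ^ 4,
      (((d ^ 3 * B : ℤ) : ℚ) + (d * r) * ((d ^ 2 * A : ℤ) : ℚ) + (d * r) ^ 2 * 0 +
        (d * r) ^ 3) / s ^ 6⟩ : WeierstrassCurve ℚ) =
      EAB (-(d * M6 u v)) (-(d * N6 u v)) := by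
    have e1 : (0 + 3 * (d * r)) / s ^ 2 = d * ((M6 u v : ℚ) + N6 u v) := by
      rw [hr]; field_simp; ring
    have e2 : (((d ^ 2 * A : ℤ) : ℚ) + 2 * (d * r) * 0 + 3 * (d * r) ^ 2) / s ^ 4 =
        d ^ 2 * ((M6 u v : ℚ) * N6 u v) := by
      rw [div_eq_iff (pow_ne_zero 4 hs), hr]
      push_cast
      linear_combination (d : ℚ) ^ 2 * (1 / 3) * hR.ea
    have e3 : (((d ^ 3 * B : ℤ) : ℚ) + (d * r) * ((d ^ 2 * A : ℤ) : ℚ) + (d * r) ^ 2 * 0 +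
        (d * r) ^ 3) / s ^ 6 = 0 := by
      rw [div_eq_zero_iff]; left
      rw [hr]
      push_cast
      linear_combination (d : ℚ) ^ 3 * (1 / 27) * hR.eb +
        (d : ℚ) ^ 3 * (1 / 9) * s ^ 2 * ((M6 u v : ℚ) + N6 u v) * hR.ea
    rw [e1, e2, e3]
    unfold EAB
    push_cast
    congr 1 <;> ring
  rw [h1] at e
  have hfg := (Pool.Agent.W214.RK.half (-(d * M6 u v)) (-(d * N6 u v))
    (neg_ne_zero.2 (mul_ne_zero hd hR.m0)) (neg_ne_zero.2 (mul_ne_zero hd hR.n0))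
    (fun h => hR.mn (mul_left_cancel₀ hd (neg_injective h)))).1
  have hfin : Module.Finite ℤ (EAB (-(d * M6 u v)) (-(d * N6 u v))).toAffine.Point :=
    Module.Finite.iff_addGroup_fg.2 hfg
  exact Module.Finite.equiv e.symm.toIntLinearEquiv

/-- the exponential of an average -/
lemma two_pow_avg {ι : Type} [Fintype ι] [Nonempty ι] (f : ι → ℕ) (n : ℕ) (hn : Fintype.card ι = n)
    (R : ℕ) (hR : R ≤ ∑ i, f i) : (2 : ℝ) ^ ((R : ℝ) / (n : ℝ)) ≤ ∑ i, (2 : ℝ) ^ f i := by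
  obtain ⟨i0, hi0⟩ := Finite.exists_max f
  have hn0 : 0 < n := by rw [← hn]; exact Fintype.card_pos
  have h1 : (R : ℝ) / n ≤ f i0 := by
    rw [div_le_iff₀ (by exact_mod_cast hn0)]
    have h2 : R ≤ f i0 * n := by
      calc R ≤ ∑ i, f i := hR
        _ ≤ ∑ _i : ι, f i0 := sum_le_sum fun i _ => hi0 i
        _ = f i0 * n := by rw [sum_const, card_univ, hn, smul_eq_mul, mul_comm]
    exact_mod_cast h2
  calc (2 : ℝ) ^ ((R : ℝ) / (n : ℝ)) ≤ (2 : ℝ) ^ ((f i0 : ℕ) : ℝ) :=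
        Real.rpow_le_rpow_of_exponent_le (by norm_num) h1
    _ = (2 : ℝ) ^ f i0 := Real.rpow_natCast _ _
    _ ≤ ∑ i, (2 : ℝ) ^ f i :=
        single_le_sum (f := fun i => (2 : ℝ) ^ f i) (fun _ _ => by positivity) (mem_univ i0)

open Classical in
open Pool.Agent.W135.RT in
/-- the average over the curves with `Z/2 x Z/6` of the ranks over a multiquadratic field -/
theorem final3_of (hMQ : MQ2) (F : Type) [Field F] [CharZero F] [Algebra ℚ F] (r : ℕ)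
    (x : Fin r → F) (d : Fin r → ℤ) (hx : ∀ i, x i ^ 2 = (d i : F)) (hd : ∀ i, d i ≠ 0)
    (hgen : IntermediateField.adjoin ℚ (Set.range x) = ⊤) :
    ∃ C : ℝ, ∀ H : ℕ, ∑ c ∈ Cv 6 H,
      (2 : ℝ) ^ ((Module.finrank ℤ (ShK (c.1 : F) (c.2 : F)).toAffine.Point : ℝ) / 2 ^ r) ≤
        C * (Cv 6 H).card := by
  have hdT : ∀ T : Finset (Fin r), (∏ i ∈ T, d i) ≠ 0 := fun T =>
    prod_ne_zero_iff.2 fun i _ => hd i
  choose Ct hCt using fun T : Finset (Fin r) => twist6 (hdT T)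
  refine ⟨∑ T, Ct T, fun H => ?_⟩
  rw [sum_mul]
  refine le_trans ?_ (sum_le_sum fun T _ => hCt T H)
  rw [sum_comm]
  refine sum_le_sum fun c hc => ?_
  obtain ⟨s, hR⟩ := FF_spec hc
  have hc1 := memCv hc
  have h1 := hMQ F r x d hx hd hgen c.1 c.2 hc1.1
  have hfin : ∀ T : Finset (Fin r), Module.Finite ℤ
      (Sh ((∏ i ∈ T, d i) ^ 2 * c.1) ((∏ i ∈ T, d i) ^ 3 * c.2)).toAffine.Point :=
    fun T => finite_tw hR (hdT T)
  have h2 : ∀ T : Finset (Fin r), Module.rank ℤ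
      (Sh ((∏ i ∈ T, d i) ^ 2 * c.1) ((∏ i ∈ T, d i) ^ 3 * c.2)).toAffine.Point =
      ((Module.finrank ℤ (Sh ((∏ i ∈ T, d i) ^ 2 * c.1)
        ((∏ i ∈ T, d i) ^ 3 * c.2)).toAffine.Point : ℕ) : Cardinal) := by
    intro T
    have := hfin T
    exact (Module.finrank_eq_rank ℤ _).symm
  have h3 : Module.finrank ℤ (ShK (c.1 : F) (c.2 : F)).toAffine.Point ≤
      ∑ T : Finset (Fin r), Module.finrank ℤ (Sh ((∏ i ∈ T, d i) ^ 2 * c.1)
        ((∏ i ∈ T, d i) ^ 3 * c.2)).toAffine.Point := by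
    rw [sum_congr rfl fun T _ => h2 T, ← Nat.cast_sum] at h1
    exact Module.finrank_le_of_rank_le h1
  have h4 := two_pow_avg (ι := Finset (Fin r)) (fun T => Module.finrank ℤ
    (Sh ((∏ i ∈ T, d i) ^ 2 * c.1) ((∏ i ∈ T, d i) ^ 3 * c.2)).toAffine.Point) (2 ^ r)
    (by rw [Fintype.card_finset, Fintype.card_fin]) _ h3
  push_cast at h4
  exact h4

end Pool.Agent.W307.RS
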