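import Mathlib
import Pool.Agent.W307.RS.Final3
import Pool.Agent.W612.RS.Mq1
import Pool.Agent.W410.RS.MQ2

/-! Project RS: the ranks over multiquadratic fields. -/

namespace Pool.Agent.W307.RS

open Finset Pool.Agent.W262.RK Pool.Agent.W307.RT

/-- the rank over a multiquadratic field -/
theorem mq2 : MQ2 := Pool.Agent.W410.RS.mq2_of Pool.Agent.W612.RS.mq1

end Pool.Agent.W307.RS
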